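import Pool.Agent.Helper29.ZR.Props
import Pool.Agent.Helper10.RC.Homs
import Pool.Agent.Helper62.SR.Disj
import Pool.Agent.Helper67.RC.Ped

/-!
# MP_b55b7c_an: the perturbation argument (packet ZR-Pert)
-/

open scoped ENNReal NNReal InnerProductSpace ComplexOrder
open Filter Topology

attribute [-instance] CStarMatrix.instAlgebra CStarMatrix.instModule CStarMatrix.instSMul
  CStarMatrix.instMulAction CStarMatrix.instDistribMulAction

set_option linter.unusedSectionVars false

noncomputable section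
namespace RC
universe u

namespace Pert

variable {A : Type u} [CStarAlgebra A] [PartialOrder A] [StarOrderedRing A]
variable {ι κ μ ν : Type} [Fintype ι] [DecidableEq ι] [Fintype κ] [DecidableEq κ]
  [Fintype μ] [DecidableEq μ] [Fintype ν] [DecidableEq ν]

theorem cm_mul_add (x : CStarMatrix ι κ A) (y z : CStarMatrix κ μ A) :
    x * (y + z) = x * y + x * z := Matrix.mul_add _ _ _

theorem cm_add_mul (x y : CStarMatrix ι κ A) (z : CStarMatrix κ μ A) :
    (x + y) * z = x * z + y * z := Matrix.add_mul _ _ _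

theorem cm_mul_zero (x : CStarMatrix ι κ A) : x * (0 : CStarMatrix κ μ A) = 0 :=
  Matrix.mul_zero _

theorem cm_zero_mul (x : CStarMatrix κ μ A) : (0 : CStarMatrix ι κ A) * x = 0 :=
  Matrix.zero_mul _

theorem cm_conj_zero : (0 : CStarMatrix ι κ A).conjTranspose = 0 := Matrix.conjTranspose_zero

theorem cm_sum_mul {σ : Type} (s : Finset σ) (f : σ → CStarMatrix ι κ A)
    (z : CStarMatrix κ μ A) : (∑ i ∈ s, f i) * z = ∑ i ∈ s, f i * z := by
  classical
  induction s using Finset.induction_on with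
  | empty => rw [Finset.sum_empty, Finset.sum_empty, cm_zero_mul]
  | insert a s ha ih => rw [Finset.sum_insert ha, Finset.sum_insert ha, cm_add_mul, ih]

theorem cm_mul_sum {σ : Type} (s : Finset σ) (f : σ → CStarMatrix κ μ A)
    (z : CStarMatrix ι κ A) : z * (∑ i ∈ s, f i) = ∑ i ∈ s, z * f i := by
  classical
  induction s using Finset.induction_on with
  | empty => rw [Finset.sum_empty, Finset.sum_empty, cm_mul_zero]
  | insert a s ha ih => rw [Finset.sum_insert ha, Finset.sum_insert ha, cm_mul_add, ih]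

/-- `min(1, (t/δ - 1)_+)` -/
def fF (δ t : ℝ) : ℝ := min 1 (max 0 ((t - δ) / δ))

theorem fF_cont {δ : ℝ} : Continuous (fF δ) := by
  unfold fF
  fun_prop

theorem fF_nonneg (δ t : ℝ) : 0 ≤ fF δ t := le_min zero_le_one (le_max_left _ _)

theorem fF_le (δ t : ℝ) : fF δ t ≤ 1 := min_le_left _ _

theorem fF_zero {δ t : ℝ} (hδ : 0 < δ) (h : t ≤ δ) : fF δ t = 0 := by
  unfold fF
  rw [max_eq_left (div_nonpos_of_nonpos_of_nonneg (by linarith) hδ.le)]
  exact min_eq_right zero_le_one

theorem fF_one {δ t : ℝ} (hδ : 0 < δ) (h : 2 * δ ≤ t) : fF δ t = 1 := by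
  unfold fF
  have h1 : 1 ≤ (t - δ) / δ := by
    rw [le_div_iff₀ hδ]; linarith
  exact min_eq_left (le_trans h1 (le_max_right _ _))

theorem fF_eq {δ : ℝ} (hδ : 0 < δ) (t : ℝ) : fF δ t = t * (fF δ t / max t δ) := by
  rcases le_total t δ with h | h
  · rw [fF_zero hδ h, zero_div, mul_zero]
  · rw [max_eq_left h]
    have : t ≠ 0 := (lt_of_lt_of_le hδ h).ne'
    field_simp

theorem max_cont {δ : ℝ} (hδ : 0 < δ) {f : ℝ → ℝ} (hf : Continuous f) :
    Continuous fun t => f t / max t δ :=
  hf.div (by fun_prop) fun t => (lt_of_lt_of_le hδ (le_max_right _ _)).ne'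

theorem nE_eq {δ : ℝ} (hδ : 0 < δ) (t : ℝ) : max 0 (1 - t / δ) = 1 - t * (1 / max t δ) := by
  rcases le_total t δ with h | h
  · rw [max_eq_right h, max_eq_right]
    · ring
    · have : t / δ ≤ 1 := (div_le_one hδ).2 h
      linarith
  · have h0 : 0 < t := lt_of_lt_of_le hδ h
    rw [max_eq_left h, max_eq_left]
    · rw [mul_one_div_cancel h0.ne', sub_self]
    · have : 1 ≤ t / δ := (one_le_div hδ).2 h
      linarith

theorem fF_mul {δ : ℝ} (hδ : 0 < δ) (t : ℝ) : fF δ t * max 0 (1 - t / δ) = 0 := by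
  rcases le_total t δ with h | h
  · rw [fF_zero hδ h, zero_mul]
  · have : 1 ≤ t / δ := (one_le_div hδ).2 h
    rw [max_eq_left (by linarith), mul_zero]

section el
variable {D : Type u} [CStarAlgebra D] [PartialOrder D] [StarOrderedRing D]

theorem F_form {δ : ℝ} (hδ : 0 < δ) {S : D} (hS : IsSelfAdjoint S) :
    cfc (fF δ) S = S * cfc (fun t => fF δ t / max t δ) S := by
  have h1 : cfc (fF δ) S = cfc (fun t => t * (fF δ t / max t δ)) S :=
    cfc_congr fun t _ => fF_eq hδ t
  rw [h1, cfc_mul (fun t : ℝ => t) (fun t => fF δ t / max t δ) S (by fun_prop)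
    (max_cont hδ fF_cont).continuousOn, cfc_id' ℝ S]

theorem E_form {δ : ℝ} (hδ : 0 < δ) {S : D} (hS : IsSelfAdjoint S) :
    cfc (fun t : ℝ => max 0 (1 - t / δ)) S = 1 - S * cfc (fun t => 1 / max t δ) S := by
  have h1 : cfc (fun t : ℝ => max 0 (1 - t / δ)) S = cfc (fun t => 1 - t * (1 / max t δ)) S :=
    cfc_congr fun t _ => nE_eq hδ t
  have hc := max_cont hδ (f := fun _ => (1 : ℝ)) continuous_const
  rw [h1, cfc_sub (fun _ : ℝ => (1 : ℝ)) (fun t => t * (1 / max t δ)) S (by fun_prop)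
    (by fun_prop), cfc_const_one ℝ S,
    cfc_mul (fun t : ℝ => t) (fun t => 1 / max t δ) S (by fun_prop) hc.continuousOn,
    cfc_id' ℝ S]

theorem FE {δ : ℝ} (hδ : 0 < δ) (S : D) :
    cfc (fF δ) S * cfc (fun t : ℝ => max 0 (1 - t / δ)) S = 0 := by
  rw [← cfc_mul (fF δ) (fun t : ℝ => max 0 (1 - t / δ)) S fF_cont.continuousOn (by fun_prop)]
  have h1 : cfc (fun t => fF δ t * max 0 (1 - t / δ)) S = cfc (fun _ : ℝ => (0 : ℝ)) S :=
    cfc_congr fun t _ => fF_mul hδ t
  rw [h1, cfc_const_zero ℝ S]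

theorem oneF {δ : ℝ} (hδ : 0 < δ) {S : D} (hS : 0 ≤ S) :
    ‖(1 - cfc (fF δ) S) * S * (1 - cfc (fF δ) S)‖ ≤ 2 * δ := by
  have hsa : IsSelfAdjoint S := IsSelfAdjoint.of_nonneg hS
  have hc : Continuous fun t => 1 - fF δ t := continuous_const.sub fF_cont
  have h1 : (1 : D) - cfc (fF δ) S = cfc (fun t => 1 - fF δ t) S := by
    rw [cfc_sub (fun _ : ℝ => (1 : ℝ)) (fF δ) S (by fun_prop) fF_cont.continuousOn,
      cfc_const_one ℝ S]
  have h2 : cfc (fun t => 1 - fF δ t) S * S * cfc (fun t => 1 - fF δ t) S =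
      cfc (fun t => (1 - fF δ t) * t * (1 - fF δ t)) S := by
    rw [cfc_mul (fun t => (1 - fF δ t) * t) (fun t => 1 - fF δ t) S
      (hc.mul continuous_id).continuousOn hc.continuousOn,
      cfc_mul (fun t => 1 - fF δ t) (fun t => t) S hc.continuousOn (by fun_prop), cfc_id' ℝ S]
  rw [h1, h2]
  refine norm_cfc_le (by linarith) fun t ht => ?_
  have ht0 := spectrum_nonneg_of_nonneg hS ht
  have h3 := fF_nonneg δ t
  have h4 := fF_le δ t
  rw [Real.norm_eq_abs, abs_of_nonneg (by
    have : 0 ≤ 1 - fF δ t := by linarith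
    positivity)]
  rcases le_total t (2 * δ) with h | h
  · have h5 : (1 - fF δ t) * t ≤ t := by nlinarith
    have h6 : 0 ≤ (1 - fF δ t) * t := mul_nonneg (by linarith) ht0
    nlinarith
  · rw [fF_one hδ h]
    simp only [sub_self, mul_zero]
    linarith

end el

/-- the ramp from `ε / 2` to `ε` -/
def rm (ε t : ℝ) : ℝ := min 1 (max 0 ((t - ε / 2) / (ε / 2)))

theorem rm_cont {ε : ℝ} : Continuous (rm ε) := by
  unfold rm
  fun_prop

theorem rm_zero {ε t : ℝ} (hε : 0 < ε) (h : t ≤ ε / 2) : rm ε t = 0 := by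
  unfold rm
  rw [max_eq_left (div_nonpos_of_nonpos_of_nonneg (by linarith) (by linarith))]
  exact min_eq_right zero_le_one

theorem rm_one {ε t : ℝ} (hε : 0 < ε) (h : ε ≤ t) : rm ε t = 1 := by
  unfold rm
  have h1 : 1 ≤ (t - ε / 2) / (ε / 2) := by
    rw [le_div_iff₀ (by linarith)]; linarith
  exact min_eq_left (le_trans h1 (le_max_right _ _))

/-- The inequality of the functional calculus of `e`. -/
theorem e_ineq {e : A} (he : 0 ≤ e) {ε : ℝ} (hε : 0 < ε) :
    (ε / 4) • (cut e ε * cut e ε) ≤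
      (cfc (rm ε) e * e) * e * (cfc (rm ε) e * e) -
        (ε / 4) • ((cfc (rm ε) e * e) * (cfc (rm ε) e * e)) := by
  have hsa : IsSelfAdjoint e := IsSelfAdjoint.of_nonneg he
  have hp : cfc (rm ε) e * e = cfc (fun t => rm ε t * t) e := by
    rw [cfc_mul (rm ε) (fun t => t) e rm_cont.continuousOn (by fun_prop), cfc_id' ℝ e]
  have hc : Continuous fun t => rm ε t * t := rm_cont.mul continuous_id
  have h1 : (ε / 4) • (cut e ε * cut e ε) =
      cfc (fun t : ℝ => ε / 4 * (max (t - ε) 0 * max (t - ε) 0)) e := by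
    unfold cut
    rw [cfc_const_mul (ε / 4) (fun t : ℝ => max (t - ε) 0 * max (t - ε) 0) e (by fun_prop),
      cfc_mul (fun t : ℝ => max (t - ε) 0) (fun t : ℝ => max (t - ε) 0) e (by fun_prop)
        (by fun_prop)]
  have h2 : cfc (fun t => rm ε t * t) e * e * cfc (fun t => rm ε t * t) e =
      cfc (fun t => rm ε t * t * t * (rm ε t * t)) e := by
    rw [cfc_mul (fun t => rm ε t * t * t) (fun t => rm ε t * t) e
      (hc.mul continuous_id).continuousOn hc.continuousOn,
      cfc_mul (fun t => rm ε t * t) (fun t => t) e hc.continuousOn (by fun_prop), cfc_id' ℝ e]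
  have h3 : (ε / 4) • (cfc (fun t => rm ε t * t) e * cfc (fun t => rm ε t * t) e) =
      cfc (fun t : ℝ => ε / 4 * (rm ε t * t * (rm ε t * t))) e := by
    rw [cfc_const_mul (ε / 4) (fun t : ℝ => rm ε t * t * (rm ε t * t)) e
      (hc.mul hc).continuousOn,
      cfc_mul (fun t => rm ε t * t) (fun t => rm ε t * t) e hc.continuousOn hc.continuousOn]
  have hc1 : Continuous fun t => rm ε t * t * t * (rm ε t * t) := (hc.mul continuous_id).mul hc
  have hc2 : Continuous fun t => ε / 4 * (rm ε t * t * (rm ε t * t)) :=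
    continuous_const.mul (hc.mul hc)
  rw [hp, h1, h2, h3, ← cfc_sub _ _ e hc1.continuousOn hc2.continuousOn]
  refine cfc_mono (fun t ht => ?_) (by fun_prop) (hc1.sub hc2).continuousOn
  have ht0 := spectrum_nonneg_of_nonneg he ht
  rcases le_total t (ε / 2) with h | h
  · rw [rm_zero hε h, max_eq_right (by linarith)]
    simp
  · rcases le_total t ε with h' | h'
    · rw [max_eq_right (by linarith)]
      have h4 : rm ε t * t * t * (rm ε t * t) - ε / 4 * (rm ε t * t * (rm ε t * t)) =
        (rm ε t * t) ^ 2 * (t - ε / 4) := by ring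
      rw [h4]
      have : 0 ≤ (rm ε t * t) ^ 2 * (t - ε / 4) := mul_nonneg (sq_nonneg _) (by linarith)
      simpa using this
    · rw [rm_one hε h', max_eq_left (by linarith)]
      have h5 : 0 ≤ t - ε := by linarith
      nlinarith [mul_nonneg ht0 h5, mul_nonneg (mul_nonneg ht0 ht0) h5, mul_pos hε hε,
        mul_nonneg (mul_nonneg ht0 ht0) hε.le, mul_nonneg ht0 hε.le]

end Pert

open Pert

theorem pert (hMo : QMonoP.{u}) : PertP.{u} := by
  intro A _ _ _ ν ι _ _ _ c S Y e z hc he hS hSY hT θ H κ ε hκ hε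
  classical
  have hSsa : IsSelfAdjoint S := IsSelfAdjoint.of_nonneg hS
  have hesa : IsSelfAdjoint e := IsSelfAdjoint.of_nonneg he
  set δ : ℝ := κ ^ 2 / 8 with hδ
  have hδ0 : 0 < δ := by positivity
  obtain ⟨v, l, hl, hlθ, hv⟩ := H δ (ε / 4) hδ0 (by linarith)
  set E : CStarMatrix ν ν A := nE δ S with hE
  set F : CStarMatrix ν ν A := cfc (fF δ) S with hF
  set F1 : CStarMatrix ν ν A := cfc (fun t => fF δ t / max t δ) S with hF1
  set G1 : CStarMatrix ν ν A := cfc (fun t => 1 / max t δ) S with hG1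
  have hFf : F = S * F1 := F_form hδ0 hSsa
  have hEf : E = 1 - S * G1 := E_form hδ0 hSsa
  have hFE : F * E = 0 := FE hδ0 S
  have hEsa : E.conjTranspose = E := (cfc_predicate (R := ℝ) _ S : IsSelfAdjoint _).star_eq
  have hFsa : F.conjTranspose = F := (cfc_predicate (R := ℝ) _ S : IsSelfAdjoint _).star_eq
  have hcsa : c.conjTranspose = c := (IsSelfAdjoint.of_nonneg hc).star_eq
  -- the element of `A`
  set g : A := cfc (rm ε) e with hg
  have hgsa : IsSelfAdjoint g := cfc_predicate (R := ℝ) _ e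
  have hge : g * e = e * g := by
    have := (cfc_commute_cfc (rm ε) (fun t : ℝ => t) e).eq
    rwa [cfc_id' ℝ e] at this
  have hmul1 : ∀ x y : A, one1 x * one1 y = one1 (x * y) := fun x y => (map_mul one1H x y).symm
  have hstar1 : ∀ x : A, (one1 x).conjTranspose = one1 (star x) := fun x =>
    (map_star one1H x).symm
  have hsmul1 : ∀ (t : ℝ) (x : A), one1 (t • x) = t • one1 x := fun t x => rfl
  have hadd1 : ∀ x y : A, one1 (x + y) = one1 x + one1 y := fun x y => map_add one1H x y
  have hsub1 : ∀ x y : A, one1 (x - y) = one1 x - one1 y := fun x y => map_sub one1H x y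
  have hmono1 : ∀ {x y : A}, x ≤ y → one1 x ≤ one1 y := fun {x y} h => by
    rw [← sub_nonneg, ← hsub1]
    exact one1_nonneg (sub_nonneg.2 h)
  have hpsa : star (g * e) = g * e := by
    rw [star_mul, hgsa.star_eq, hesa.star_eq, hge]
  -- the constants
  set B : ℝ := 1 + ∑ i, ‖E * (c * v i)‖ * ‖one1 (g * e)‖ with hB
  have hsum0 : 0 ≤ ∑ i, ‖E * (c * v i)‖ * ‖one1 (g * e)‖ :=
    Finset.sum_nonneg fun i _ => mul_nonneg (norm_nonneg _) (norm_nonneg _)
  have hB0 : 0 < B := by linarith
  set kap : ℝ := κ / 2 / B with hkap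
  have hkap0 : 0 < kap := by positivity
  set r : A := kap • (g * e) with hr
  have hrsa : star r = r := by
    rw [hr, star_smul, hpsa, star_trivial]
  set X : ι → CStarMatrix ν Unit A := fun i => E * (c * v i) * one1 r with hX
  have hXn : ∀ i, ‖X i‖ ≤ κ / 2 := by
    intro i
    have h1 : ‖one1 r‖ = kap * ‖one1 (g * e)‖ := by
      rw [hr, hsmul1, norm_smul, Real.norm_eq_abs, abs_of_pos hkap0]
    have h2 : ‖X i‖ ≤ ‖E * (c * v i)‖ * (kap * ‖one1 (g * e)‖) := by
      rw [← h1]
      exact cm_norm_mul_le _ _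
    have h3 : ‖E * (c * v i)‖ * ‖one1 (g * e)‖ ≤ B := by
      have := Finset.single_le_sum (f := fun i => ‖E * (c * v i)‖ * ‖one1 (g * e)‖)
        (fun i _ => mul_nonneg (norm_nonneg _) (norm_nonneg _)) (Finset.mem_univ i)
      linarith
    calc ‖X i‖ ≤ kap * (‖E * (c * v i)‖ * ‖one1 (g * e)‖) := by
          refine h2.trans (le_of_eq (by ring))
      _ ≤ kap * B := mul_le_mul_of_nonneg_left h3 hkap0.le
      _ = κ / 2 := by
          rw [hkap]
          field_simp
  set T : ι → CStarMatrix ν Unit A := fun i => c * z i * one1 e with hTdef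
  have hFf' : F = c * Y * c * F1 := by rw [← hSY]; exact hFf
  have hEf' : E = 1 - c * Y * c * G1 := by rw [← hSY]; exact hEf
  have hFT : ∀ i, F * T i = c * (Y * c * F1 * c * z i) * one1 e := by
    intro i
    simp only [hTdef]
    rw [hFf']
    simp only [cm_assoc]
  have hEc : E * c = c * (1 - Y * c * G1 * c) := by
    rw [hEf', cm_sub_mul, cm_mul_sub, cm_one_mul, cm_mul_one]
    simp only [cm_assoc]
  have hXf : ∀ i, X i = c * ((1 - Y * c * G1 * c) * v i * one1 (kap • g)) * one1 e := by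
    intro i
    have h1 : one1 r = one1 (kap • g) * one1 e := by
      rw [hmul1, hr, smul_mul_assoc]
    simp only [hX]
    rw [h1, ← cm_assoc E c (v i), hEc]
    simp only [cm_assoc]
  set z' : ι → CStarMatrix ν Unit A := fun i =>
    Y * c * F1 * c * z i + (1 - Y * c * G1 * c) * v i * one1 (kap • g) with hz'
  have hT' : ∀ i, c * z' i * one1 e = F * T i + X i := by
    intro i
    rw [hFT, hXf]
    simp only [hz']
    rw [cm_mul_add, cm_add_mul]
  have hEF : E * F = 0 := by
    have : (F * E).conjTranspose = 0 := by rw [hFE]; exact cm_conj_zero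
    rw [cm_conj_mul, hEsa, hFsa] at this
    exact this
  -- the norm estimate
  have hnorm : ∀ i, ‖T i - F * T i‖ ≤ κ / 2 := by
    intro i
    have h1 : T i - F * T i = (1 - F) * T i := by
      rw [cm_sub_mul, cm_one_mul]
    have hsa1 : (1 - F).conjTranspose = 1 - F := by
      rw [cm_conj_sub, cm_conj_one, hFsa]
    have h2 : (1 - F) * T i * ((1 - F) * T i).conjTranspose =
        (1 - F) * (T i * (T i).conjTranspose) * (1 - F).conjTranspose := by
      rw [cm_conj_mul]
      simp only [cm_assoc]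
    have h3 := cm_norm_sq_le ((1 - F) * T i)
    have h4 : ‖(1 - F) * T i * ((1 - F) * T i).conjTranspose‖ ≤ 2 * δ := by
      rw [h2]
      refine le_trans (CStarAlgebra.norm_le_norm_of_nonneg_of_le
        (cm_conj_nonneg _ (cm_mul_conj_nonneg _)) (cm_conj_le _ (hT i))) ?_
      rw [hsa1]
      exact oneF hδ0 hS
    rw [h1]
    have h5 : ‖(1 - F) * T i‖ ^ 2 ≤ (κ / 2) ^ 2 := by
      refine le_trans (le_trans h3 h4) (le_of_eq ?_)
      rw [hδ]
      ring
    exact (sq_le_sq₀ (norm_nonneg _) (by positivity)).1 h5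
  -- the sum
  have hXX : ∀ i, (X i).conjTranspose * X i =
      one1 r * ((v i).conjTranspose * (c * (E * E) * c) * v i) * one1 r := by
    intro i
    simp only [hX]
    rw [cm_conj_mul, cm_conj_mul, cm_conj_mul, hstar1, hrsa, hEsa, hcsa]
    simp only [cm_assoc]
  have hcross : ∀ i, (c * z' i * one1 e).conjTranspose * (c * z' i * one1 e) =
      (F * T i).conjTranspose * (F * T i) + (X i).conjTranspose * X i := by
    intro i
    rw [hT', cm_conj_add, cm_add_mul, cm_mul_add, cm_mul_add]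
    have h1 : (F * T i).conjTranspose * X i = 0 := by
      simp only [hX]
      rw [cm_conj_mul, hFsa, cm_assoc, ← cm_assoc F (E * (c * v i)), ← cm_assoc F E, hFE,
        cm_zero_mul, cm_zero_mul, cm_mul_zero]
    have h2 : (X i).conjTranspose * (F * T i) = 0 := by
      simp only [hX]
      rw [cm_conj_mul, cm_conj_mul E, hEsa, cm_assoc, cm_assoc, ← cm_assoc E F, hEF,
        cm_zero_mul, cm_mul_zero, cm_mul_zero]
    rw [h1, h2, add_zero, zero_add]
  have hsumge : ∑ i, (X i).conjTranspose * X i ≤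
      ∑ i, (c * z' i * one1 e).conjTranspose * (c * z' i * one1 e) := by
    refine Finset.sum_le_sum fun i _ => ?_
    rw [hcross]
    exact le_add_of_nonneg_left (cm_conj_mul_nonneg _)
  have hsumX : ∑ i, (X i).conjTranspose * X i =
      one1 r * (∑ i, (v i).conjTranspose * (c * (E * E) * c) * v i) * one1 r := by
    rw [cm_mul_sum, cm_sum_mul]
    exact Finset.sum_congr rfl fun i _ => hXX i
  have hmain : one1 (r * e * r) ≤ ∑ i, (X i).conjTranspose * X i + one1 (r * l * r) +
      (ε / 4) • one1 (r * r) := by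
    have h1 := cm_conj_le (one1 r) hv
    rw [hstar1, hrsa, cm_mul_add, cm_mul_add, cm_add_mul, cm_add_mul, ← hsumX, hmul1, hmul1,
      hmul1, hmul1, cm_mul_rsmul, cm_rsmul_mul, cm_mul_one, hmul1] at h1
    exact h1
  have hrr : r * r = (kap ^ 2) • ((g * e) * (g * e)) := by
    rw [hr, smul_mul_smul_comm, pow_two]
  have hrer : r * e * r = (kap ^ 2) • ((g * e) * e * (g * e)) := by
    rw [hr, smul_mul_assoc, smul_mul_smul_comm, pow_two]
  have hrlr : r * l * r = e * ((kap ^ 2) • (g * l * g)) * e := by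
    rw [hr, smul_mul_assoc, smul_mul_smul_comm, ← pow_two, mul_smul_comm, smul_mul_assoc]
    congr 1
    calc g * e * l * (g * e) = e * g * l * (g * e) := by rw [hge]
      _ = e * (g * l * g) * e := by simp only [mul_assoc]
  have hk2 : (0 : ℝ) ≤ kap ^ 2 := sq_nonneg _
  have hfin : (kap ^ 2 * (ε / 4)) • one1 (cut e ε * cut e ε) ≤
      one1 (r * e * r) - (ε / 4) • one1 (r * r) := by
    have h1 := smul_le_smul_of_nonneg_left (e_ineq he hε) hk2
    have h2 := hmono1 h1
    rw [← hg] at h2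
    rw [hrer, hrr, hsmul1, hsmul1]
    rw [hsmul1, hsmul1, hsmul1, hsub1, hsmul1, smul_sub] at h2
    rw [mul_smul, smul_comm (ε / 4) (kap ^ 2)]
    exact h2
  refine ⟨z', kap ^ 2 * (ε / 4), (kap ^ 2) • (g * l * g), by positivity, ?_, ?_, ?_, ?_⟩
  · refine smul_nonneg hk2 ?_
    have := star_left_conjugate_nonneg hl g
    rwa [hgsa.star_eq] at this
  · intro φ σ hQ
    refine le_trans ?_ (hlθ φ σ hQ)
    have hnn : (0 : A) ≤ (kap ^ 2) • (g * l * g) := by
      refine smul_nonneg hk2 ?_
      have := star_left_conjugate_nonneg hl g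
      rwa [hgsa.star_eq] at this
    refine hMo A σ Unit Unit _ _ (one1_nonneg hnn) (one1_nonneg hl) ?_
    intro η hη
    refine ⟨one1 (kap • g), ?_⟩
    have h1 : one1 (kap • g) * one1 l * (one1 (kap • g)).conjTranspose =
        one1 ((kap ^ 2) • (g * l * g)) := by
      rw [hstar1, star_smul, hgsa.star_eq, star_trivial, hmul1, hmul1, smul_mul_assoc,
        smul_mul_smul_comm, ← pow_two]
    rw [h1, sub_self, norm_zero]
    exact hη
  · intro i
    rw [hT' i]
    have h1 : F * T i + X i - c * z i * one1 e = X i - (T i - F * T i) := by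
      simp only [hTdef]
      abel
    rw [h1]
    refine le_trans (norm_sub_le _ _) ?_
    have h2 := hXn i
    have h3 := hnorm i
    linarith
  · refine le_trans hfin ?_
    rw [sub_le_iff_le_add]
    refine le_trans hmain ?_
    rw [hrlr]
    gcongr

end RC
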